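import Pool.Agent.H29.FL4.Stmts

/-! # Row LGS of the board `fl4`: logarithms of the relative units -/

set_option autoImplicit false

namespace Pool.FL4.H12

open Pool.FL4

theorem key (u u' : ℝ) (h : u * u' = 1) (n : ℕ) :
    |u ^ n| = Real.exp (n * Real.log |u|) ∧ |u' ^ n| = Real.exp (-(n * Real.log |u|)) := by
  have hu : u ≠ 0 := by
    rintro rfl
    rw [zero_mul] at h
    exact zero_ne_one h
  have hp : 0 < |u| := abs_pos.mpr hu
  have h1 : Real.exp (n * Real.log |u|) = |u| ^ n := by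
    rw [Real.exp_nat_mul, Real.exp_log hp]
  have h2 : u' = u⁻¹ := by
    rw [eq_inv_of_mul_eq_one_right h]
  refine ⟨by rw [abs_pow, h1], ?_⟩
  rw [Real.exp_neg, h1, h2, abs_pow, abs_inv, inv_pow]

/-- real bounds -/
theorem bounds (i : ℕ) (hi : 1 ≤ i) (T T' bp yp bm ym : ℝ)
    (hT : 33 ≤ T) (hTT : T * T' = 1) (hTe : T ≤ Real.exp (4 * i))
    (hbp : bp = T + √2) (hbm : bm = T' - √2) (hyp : yp ^ 2 = bp ^ 2 - 1) (hym : ym ^ 2 = bm ^ 2 - 1)
    (h0 : 0 < yp) (h0' : 0 < ym) (hb : bm < -(138 / 100)) :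
    |2 * Real.log (|bp + yp|)| ≤ 20 * i ∧ |2 * Real.log (|bm + ym|)| ≤ 20 * i ∧
    |4 * Real.log (|(√2 * bp - 1 + yp) * T'|)| ≤ 20 * i ∧
    |4 * Real.log (|(-√2 * bm - 1 + ym) * T|)| ≤ 20 * i ∧
    (2 * Real.log |bp + yp|) * (4 * Real.log |(-√2 * bm - 1 + ym) * T|) -
      (2 * Real.log |bm + ym|) * (4 * Real.log |(√2 * bp - 1 + yp) * T'|) ≠ 0 ∧
    (bp + yp) * (bp - yp) = 1 ∧ (bm + ym) * (bm - ym) = 1 ∧
    ((√2 * bp - 1 + yp) * T') * ((√2 * bp - 1 - yp) * T') = 1 ∧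
    ((-√2 * bm - 1 + ym) * T) * ((-√2 * bm - 1 - ym) * T) = 1 := by
  have hs : (√2 : ℝ) ^ 2 = 2 := Real.sq_sqrt (by norm_num)
  have hs0 : (0 : ℝ) < √2 := Real.sqrt_pos.mpr (by norm_num)
  have hs1 : (√2 : ℝ) < 142 / 100 := (Real.sqrt_lt' (by norm_num)).mpr (by norm_num)
  have hs2 : (141 / 100 : ℝ) < √2 := Real.lt_sqrt_of_sq_lt (by norm_num)
  have hT0 : 0 < T := by linarith
  have hT'0 : 0 < T' := by
    by_contra hn
    push Not at hn
    have := mul_nonpos_of_nonneg_of_nonpos hT0.le hn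
    linarith
  have hT'1 : T' ≤ 1 / 33 := by
    have := mul_le_mul_of_nonneg_right hT hT'0.le
    linarith
  have hi' : (1 : ℝ) ≤ i := by exact_mod_cast hi
  have e1 : (2 : ℝ) ≤ Real.exp 1 := by
    have := Real.add_one_le_exp (1 : ℝ)
    linarith
  have e2 : (3 : ℝ) ≤ Real.exp 2 := by
    have := Real.add_one_le_exp (2 : ℝ)
    linarith
  have hbp0 : 0 < bp := by rw [hbp]; linarith
  -- yp ≤ bp
  have hyb : yp ≤ bp := (pow_le_pow_iff_left₀ h0.le hbp0.le two_ne_zero).mp (by linarith)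
  -- ym ≤ 1, ym ≥ 9/10
  have hbm2 : -√2 < bm := by rw [hbm]; linarith
  have hbmsq : bm ^ 2 < 2 := by
    have h1 : (-bm) ^ 2 < √2 ^ 2 := pow_lt_pow_left₀ (by linarith) (by linarith) two_ne_zero
    have h2 : (-bm) ^ 2 = bm ^ 2 := by ring
    linarith
  have hbmsq' : (138 / 100 : ℝ) ^ 2 ≤ bm ^ 2 := by
    have h1 : (138 / 100 : ℝ) ^ 2 ≤ (-bm) ^ 2 := pow_le_pow_left₀ (by norm_num) (by linarith) 2
    have h2 : (-bm) ^ 2 = bm ^ 2 := by ring
    linarith
  have hym1 : ym ≤ 1 :=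
    (pow_le_pow_iff_left₀ h0'.le zero_le_one two_ne_zero).mp (by linarith)
  have hym2 : 9 / 10 ≤ ym :=
    (pow_le_pow_iff_left₀ (by norm_num) h0'.le two_ne_zero).mp (by
      rw [hym]
      norm_num at hbmsq' ⊢
      linarith)
  -- a
  have ha1 : 33 ≤ bp + yp := by rw [hbp]; linarith
  have ha2 : bp + yp ≤ 3 * T := by
    have : bp ≤ 3 / 2 * T := by rw [hbp]; linarith
    linarith
  have hA0 : 0 < Real.log |bp + yp| := by
    rw [abs_of_pos (by linarith)]
    exact Real.log_pos (by linarith)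
  have hA1 : Real.log |bp + yp| ≤ 2 + 4 * i := by
    rw [abs_of_pos (by linarith)]
    rw [← Real.log_exp (2 + 4 * (i : ℝ))]
    refine Real.log_le_log (by linarith) ?_
    rw [Real.exp_add]
    calc bp + yp ≤ 3 * T := ha2
      _ ≤ Real.exp 2 * Real.exp (4 * i) := mul_le_mul e2 hTe hT0.le (by positivity)
  -- m
  have hmm : (bm + ym) * (bm - ym) = 1 := by linear_combination (-1 : ℝ) * hym
  have hm'1 : bm - ym ≤ -1 := by linarith
  have hm'2 : -3 ≤ bm - ym := by linarith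
  have hB : Real.log |bm + ym| = - Real.log |bm - ym| := by
    have h1 : bm + ym = (bm - ym)⁻¹ := eq_inv_of_mul_eq_one_left hmm
    rw [h1, abs_inv, Real.log_inv]
  have habs : |bm - ym| = -(bm - ym) := abs_of_neg (by linarith)
  have hB0 : 0 ≤ Real.log |bm - ym| := by
    rw [habs]
    exact Real.log_nonneg (by linarith)
  have hB1 : Real.log |bm - ym| ≤ 2 := by
    rw [habs]
    have h9 : Real.log (-(bm - ym)) ≤ Real.log (Real.exp 2) :=
      Real.log_le_log (by linarith) (by linarith)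
    rwa [Real.log_exp] at h9
  -- w plus
  have hw1 : (√2 * bp - 1 + yp) * T' = √2 + T' * (1 + yp) := by
    rw [hbp]
    linear_combination √2 * hTT + T' * hs
  have hw2 : 1 ≤ (√2 * bp - 1 + yp) * T' := by
    rw [hw1]
    have : 0 < T' * (1 + yp) := mul_pos hT'0 (by linarith)
    linarith
  have hw3 : (√2 * bp - 1 + yp) * T' ≤ 3 := by
    rw [hw1]
    have h3 : T' * (1 + yp) ≤ T' * (1 + bp) := mul_le_mul_of_nonneg_left (by linarith) hT'0.le
    have h4 : T' * (1 + bp) = 1 + T' * (1 + √2) := by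
      rw [hbp]
      linear_combination hTT
    have h5 : T' * (1 + √2) ≤ 1 / 33 * (1 + √2) := mul_le_mul_of_nonneg_right hT'1 (by linarith)
    linarith
  have hC0 : 0 ≤ Real.log |(√2 * bp - 1 + yp) * T'| := by
    rw [abs_of_pos (by linarith)]
    exact Real.log_nonneg hw2
  have hC1 : Real.log |(√2 * bp - 1 + yp) * T'| ≤ 2 := by
    rw [abs_of_pos (by linarith)]
    have h9 : Real.log ((√2 * bp - 1 + yp) * T') ≤ Real.log (Real.exp 2) :=
      Real.log_le_log (by linarith) (by linarith)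
    rwa [Real.log_exp] at h9
  -- w minus
  have hv1 : (-√2 * bm - 1 + ym) * T = (1 + ym) * T - √2 := by
    rw [hbm]
    linear_combination -√2 * hTT + T * hs
  have hv2 : 33 ≤ (-√2 * bm - 1 + ym) * T := by
    rw [hv1]
    have := mul_le_mul_of_nonneg_right (show (19 / 10 : ℝ) ≤ 1 + ym by linarith) hT0.le
    linarith
  have hv3 : (-√2 * bm - 1 + ym) * T ≤ 2 * T := by
    rw [hv1]
    have := mul_le_mul_of_nonneg_right (show 1 + ym ≤ (2 : ℝ) by linarith) hT0.le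
    linarith
  have hD0 : 0 < Real.log |(-√2 * bm - 1 + ym) * T| := by
    rw [abs_of_pos (by linarith)]
    exact Real.log_pos (by linarith)
  have hD1 : Real.log |(-√2 * bm - 1 + ym) * T| ≤ 1 + 4 * i := by
    rw [abs_of_pos (by linarith), ← Real.log_exp (1 + 4 * (i : ℝ))]
    refine Real.log_le_log (by linarith) ?_
    rw [Real.exp_add]
    calc (-√2 * bm - 1 + ym) * T ≤ 2 * T := hv3
      _ ≤ Real.exp 1 * Real.exp (4 * i) := mul_le_mul e1 hTe hT0.le (by positivity)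
  refine ⟨?_, ?_, ?_, ?_, ?_, ?_, hmm, ?_, ?_⟩
  · rw [abs_of_pos (by linarith)]; linarith
  · rw [hB, abs_le]; constructor <;> linarith
  · rw [abs_le]; constructor <;> linarith
  · rw [abs_of_pos (by linarith)]; linarith
  · have h1 : 0 < (2 * Real.log |bp + yp|) * (4 * Real.log |(-√2 * bm - 1 + ym) * T|) := by
      positivity
    have h2 : 0 ≤ Real.log |bm - ym| * Real.log |(√2 * bp - 1 + yp) * T'| := mul_nonneg hB0 hC0
    rw [hB]
    intro h3
    have h4 : 2 * -Real.log |bm - ym| * (4 * Real.log |(√2 * bp - 1 + yp) * T'|) =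
        -8 * (Real.log |bm - ym| * Real.log |(√2 * bp - 1 + yp) * T'|) := by ring
    rw [h4] at h3
    linarith
  · linear_combination (-1 : ℝ) * hyp
  · have h1 : (√2 * bp - 1 + yp) * (√2 * bp - 1 - yp) = T ^ 2 := by
      have h2 : (√2 * bp - 1 + yp) * (√2 * bp - 1 - yp) = (bp - √2) ^ 2 := by
        linear_combination (-1 : ℝ) * hyp + (bp ^ 2 - 1) * hs
      rw [h2, hbp]
      ring
    calc (√2 * bp - 1 + yp) * T' * ((√2 * bp - 1 - yp) * T') =
        ((√2 * bp - 1 + yp) * (√2 * bp - 1 - yp)) * T' ^ 2 := by ring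
      _ = 1 := by rw [h1, ← mul_pow, hTT, one_pow]
  · have h1 : (-√2 * bm - 1 + ym) * (-√2 * bm - 1 - ym) = T' ^ 2 := by
      have h2 : (-√2 * bm - 1 + ym) * (-√2 * bm - 1 - ym) = (bm + √2) ^ 2 := by
        linear_combination (-1 : ℝ) * hym + (bm ^ 2 - 1) * hs
      rw [h2, hbm]
      ring
    calc (-√2 * bm - 1 + ym) * T * ((-√2 * bm - 1 - ym) * T) =
        ((-√2 * bm - 1 + ym) * (-√2 * bm - 1 - ym)) * T ^ 2 := by ring
      _ = 1 := by rw [h1, ← mul_pow, mul_comm T' T, hTT, one_pow]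

end Pool.FL4.H12

namespace Pool.FL4

theorem lgs (h1 : SEQStmt) (h2 : POSStmt) : LGSStmt := by
  intro i hi
  obtain ⟨-, hy2, -, -, hT, hy1, hy3, h0, h0', hb0, hb1, hb2, hb3, hb⟩ := h2 i hi
  obtain ⟨-, -, -, -, -, hP, hP', -⟩ := h1 i
  have hs : (√2 : ℝ) ^ 2 = 2 := Real.sq_sqrt (by norm_num)
  have hs0 : (0 : ℝ) < √2 := Real.sqrt_pos.mpr (by norm_num)
  have hTT : (17 + 12 * √2 : ℝ) ^ i * (17 - 12 * √2) ^ i = 1 := by
    rw [← mul_pow]
    have : (17 + 12 * √2 : ℝ) * (17 - 12 * √2) = 1 := by linear_combination (-144 : ℝ) * hs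
    rw [this, one_pow]
  have hTe : (17 + 12 * √2 : ℝ) ^ i ≤ Real.exp (4 * i) := by
    have h3 : (17 + 12 * √2 : ℝ) ≤ Real.exp 4 := by
      have h4 : (35 : ℝ) ≤ Real.exp 4 := by
        have h5 : Real.exp 4 = Real.exp 1 ^ 4 := by
          rw [← Real.exp_nat_mul]
          norm_num
        have h6 := Real.exp_one_gt_d9
        rw [h5]
        have h7 : (2.7 : ℝ) ^ 4 ≤ Real.exp 1 ^ 4 :=
          pow_le_pow_left₀ (by norm_num) (by linarith) 4
        refine le_trans ?_ h7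
        norm_num
      have : (√2 : ℝ) < 142 / 100 := (Real.sqrt_lt' (by norm_num)).mpr (by norm_num)
      linarith
    have h8 : Real.exp (4 * i) = Real.exp 4 ^ i := by
      rw [mul_comm, Real.exp_nat_mul]
    rw [h8]
    exact pow_le_pow_left₀ (by positivity) h3 i
  obtain ⟨g1, g2, g3, g4, g5, g6, g7, g8, g9⟩ := H12.bounds i hi ((17 + 12 * √2) ^ i)
    ((17 - 12 * √2) ^ i) (be i 0) (yy i 0) (be i 2) (yy i 2) hT hTT hTe hb0 hb2
    (hy2 0) (hy2 2) h0 h0' hb
  have r0 : r 0 = √2 := rfl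
  have r1 : r 1 = √2 := rfl
  have r2 : r 2 = -√2 := rfl
  have r3 : r 3 = -√2 := rfl
  have k1 := H12.key _ _ g6 2
  have k2 := H12.key _ _ g7 2
  have k3 := H12.key _ _ g8 4
  have k4 := H12.key _ _ g9 4
  refine ⟨_, _, _, _, g1, g2, g3, g4, g5, ?_, ?_⟩
  · intro j
    fin_cases j
    · exact_mod_cast k1.1
    · change |(be i 1 + yy i 1) ^ 2| = _
      rw [hb1, hy1, ← sub_eq_add_neg]
      exact_mod_cast k1.2
    · exact_mod_cast k2.1
    · change |(be i 3 + yy i 3) ^ 2| = _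
      rw [hb3, hy3, ← sub_eq_add_neg]
      exact_mod_cast k2.2
  · intro j
    fin_cases j
    · change |((r 0 * be i 0 - 1 + yy i 0) * (P i - Q i * r 0)) ^ 4| = _
      rw [r0, hP']
      exact_mod_cast k3.1
    · change |((r 1 * be i 1 - 1 + yy i 1) * (P i - Q i * r 1)) ^ 4| = _
      rw [r1, hP', hb1, hy1, ← sub_eq_add_neg]
      exact_mod_cast k3.2
    · change |((r 2 * be i 2 - 1 + yy i 2) * (P i - Q i * r 2)) ^ 4| = _
      rw [r2, mul_neg, sub_neg_eq_add, hP]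
      exact_mod_cast k4.1
    · change |((r 3 * be i 3 - 1 + yy i 3) * (P i - Q i * r 3)) ^ 4| = _
      rw [r3, mul_neg, sub_neg_eq_add, hP, hb3, hy3, ← sub_eq_add_neg]
      exact_mod_cast k4.2

end Pool.FL4
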